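import Pool.Agent.H37.C3.Green

open MeasureTheory ENNReal

set_option linter.unusedSectionVars false

namespace Pool.Agent.H37.C3

variable {G : Type*} [Group G]

theorem nq_two_eq (f : H2 G) : nq 2 (f : G → ℂ) = ENNReal.ofReal ‖f‖ := by
  have hs : Summable fun i => ‖f i‖ ^ (2 : ℝ) := by
    have := (lp.memℓp f).summable (by simp)
    simpa using this
  rw [lp.norm_eq_tsum_rpow (by simp), nq]
  have h2 : (ENNReal.toReal 2) = (2 : ℝ) := by simp
  rw [h2, ← ENNReal.ofReal_rpow_of_nonneg (tsum_nonneg fun i => by positivity) (by norm_num),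
    ENNReal.ofReal_tsum_of_nonneg (fun i => by positivity) hs]
  congr 2
  funext i
  rw [← ENNReal.ofReal_rpow_of_nonneg (norm_nonneg _) (by norm_num), ofReal_norm]

/-- The operator `R x` on `ℓ²(G)`. -/
noncomputable def T2 (x : G →₀ ℂ) : H2 G →L[ℂ] H2 G :=
  ∑ g ∈ x.support, x g • ((lpComp (Equiv.mulLeft g)).toContinuousLinearEquiv : H2 G →L[ℂ] H2 G)

theorem lp_sum_apply {ι : Type*} (s : Finset ι) (f : ι → H2 G) (u : G) :
    (∑ i ∈ s, f i : H2 G) u = ∑ i ∈ s, (f i) u := by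
  rw [lp.coeFn_sum, Finset.sum_apply]

theorem T2_eq (x : G →₀ ℂ) (f : H2 G) :
    T2 x f = ∑ g ∈ x.support, x g • lpComp (Equiv.mulLeft g) f := by
  simp [T2]

theorem T2_apply (x : G →₀ ℂ) (f : H2 G) (u : G) : T2 x f u = R x f u := by
  rw [T2_eq, lp_sum_apply]
  rfl

theorem exists_green (x : G →₀ ℂ) (K : ℝ) (hK0 : 0 < K)
    (hK : ∀ f : G → ℂ, nq 2 f ≠ ∞ → nq 2 f ≤ ENNReal.ofReal K * nq 2 (R x f)) :
    ∃ Γ : G → ℂ, nq 2 Γ ≠ ∞ ∧ ∀ u, R x Γ u = Set.indicator {(1 : G)} (fun _ => (1 : ℂ)) u := by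
  classical
  have hT : ∀ f : H2 G, ‖f‖ ≤ K * ‖T2 x f‖ := by
    intro f
    have h1 := hK f (by rw [nq_two_eq]; simp)
    have h2 : R x (f : G → ℂ) = (T2 x f : G → ℂ) := by
      funext u
      rw [T2_apply]
    rw [h2, nq_two_eq, nq_two_eq, ← ENNReal.ofReal_mul hK0.le] at h1
    exact (ENNReal.ofReal_le_ofReal_iff (by positivity)).1 h1
  obtain ⟨Γ, hΓ⟩ := hilbert_step x.support (fun g => x g) (T2 x)
    (fun g => lpComp (Equiv.mulRight g)) K hT
    (by
      intro g f
      ext u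
      rw [T2_apply, lpComp_apply, T2_apply]
      unfold R Finsupp.sum
      refine Finset.sum_congr rfl fun h _ => ?_
      simp [mul_assoc])
    (lp.single 2 (1 : G) (1 : ℂ))
    (by
      ext u
      rw [T2_apply, lp_sum_apply]
      unfold R Finsupp.sum
      refine Finset.sum_congr rfl fun h _ => ?_
      have e : (h * u = 1) ↔ (u * h = 1) := by
        rw [mul_eq_one_iff_eq_inv, mul_eq_one_iff_eq_inv']
      simp only [lp.coeFn_smul, Pi.smul_apply, smul_eq_mul, lpComp_apply, Equiv.coe_mulRight]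
      congr 1
      by_cases hh : h * u = 1
      · rw [hh, e.1 hh]
      · rw [lp.single_apply_ne _ _ _ hh, lp.single_apply_ne _ _ _ (fun h' => hh (e.2 h'))])
    (by
      intro Γ
      rw [lp.inner_single_left, lp.inner_single_left, T2_apply, lp_sum_apply]
      unfold R Finsupp.sum
      congr 1
      refine Finset.sum_congr rfl fun h _ => ?_
      simp)
  refine ⟨Γ, by rw [nq_two_eq]; simp, fun u => ?_⟩
  rw [← T2_apply, hΓ]
  by_cases hu : u = 1
  · subst hu
    simp
  · rw [lp.single_apply_ne _ _ _ hu, Set.indicator_of_notMem (by simpa using hu)]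

end Pool.Agent.H37.C3
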