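import Pool.Agent.H37.C3.Weight2
import Pool.Agent.H37.C3.Green2

open MeasureTheory ENNReal

set_option linter.unusedSectionVars false

namespace Pool.Agent.H37.C3

variable {G : Type*} [Group G] [Countable G]

theorem green_not_summable (x : G →₀ ℂ) (hx : x.sum (fun _ c => c) = 0) (Γ : G → ℂ)
    (hΓ : Summable Γ)
    (hR : ∀ u, R x Γ u = Set.indicator {(1 : G)} (fun _ => (1 : ℂ)) u) : False := by
  classical
  have h1 : ∑' u, R x Γ u = 0 := by
    unfold R Finsupp.sum
    rw [Summable.tsum_finsetSum]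
    · have : ∀ g ∈ x.support, ∑' u, x g * Γ (g * u) = x g * ∑' u, Γ u := by
        intro g _
        rw [tsum_mul_left]
        congr 1
        exact (Equiv.mulLeft g).tsum_eq Γ
      rw [Finset.sum_congr rfl this, ← Finset.sum_mul]
      have hx' : ∑ g ∈ x.support, x g = 0 := hx
      rw [hx', zero_mul]
    · intro g _
      exact ((Equiv.mulLeft g).summable_iff.2 hΓ).mul_left _
  have h2 : ∑' u, R x Γ u = 1 := by
    rw [tsum_eq_single (1 : G)]
    · rw [hR]; simp
    · intro u hu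
      rw [hR, Set.indicator_of_notMem (by simpa using hu)]
  rw [h1] at h2
  exact zero_ne_one h2

theorem core {a b : G} (hG : GapProp a b) {ℓ : G → ℕ} (hℓ : Len ℓ) (t : ℝ) (ht : 0 < t)
    (hexp : ∑' u, ENNReal.ofReal (t ^ (ℓ u)) ≠ ∞)
    (x y y' : G →₀ ℂ) (hx : x.sum (fun _ c => c) = 0) :
    1 ≤ 2 * (n1 (star x y - del a) + n1 (star x y' - del b)) := by
  by_contra hcon
  rw [not_le] at hcon
  obtain ⟨K, hK0, hK⟩ := lower_bound hG x y y' hcon
  obtain ⟨Γ, hΓ2, hR⟩ := exists_green x K hK0 (hK 2 (by norm_num) le_rfl)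
  obtain ⟨η, hη, hc⟩ := exists_eta ℓ x (1 / (2 * K)) (by positivity)
  obtain ⟨m, hm⟩ : ∃ m : ℕ, -Real.log t ≤ η * (2 * m) ∧ 1 ≤ m := by
    obtain ⟨k, hk⟩ := exists_nat_ge (-Real.log t / η)
    refine ⟨k + 1, ?_, by omega⟩
    rw [div_le_iff₀ hη] at hk
    push_cast
    nlinarith [hη, (Nat.cast_nonneg k : (0:ℝ) ≤ k)]
  obtain ⟨hm, hm1⟩ := hm
  have hmr : (1 : ℝ) ≤ m := by exact_mod_cast hm1
  have hsum : ∑' u : G, ENNReal.ofReal (Real.exp (-(η * ℓ u))) ^ (2 * m : ℝ) ≠ ∞ := by
    refine ne_top_of_le_ne_top hexp (ENNReal.tsum_le_tsum fun u => ?_)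
    rw [ENNReal.ofReal_rpow_of_nonneg (Real.exp_pos _).le (by positivity)]
    apply ENNReal.ofReal_le_ofReal
    rw [← Real.exp_mul]
    have e : t ^ (ℓ u) = Real.exp (Real.log t * ℓ u) := by
      rw [mul_comm, Real.exp_nat_mul, Real.exp_log ht]
    rw [e]
    apply Real.exp_le_exp.2
    have : (0 : ℝ) ≤ ℓ u := Nat.cast_nonneg _
    nlinarith
  have hind : ∀ j : ℕ, j ≤ m → nq (2 * m / (m + j) : ℝ) Γ ≠ ∞ := by
    intro j
    induction j with
    | zero =>
      intro _
      have : (2 * m / (m + (0 : ℕ)) : ℝ) = 2 := by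
        push_cast
        field_simp
        ring
      rw [this]
      exact hΓ2
    | succ j ih =>
      intro hj
      have hjm : ((j : ℝ) + 1) ≤ m := by exact_mod_cast hj
      have hj0 : (0 : ℝ) ≤ j := Nat.cast_nonneg _
      have hq1 : 1 ≤ (2 * m / (m + j) : ℝ) := by
        rw [le_div_iff₀ (by positivity)]; linarith
      have hq2 : (2 * m / (m + j) : ℝ) ≤ 2 := by
        rw [div_le_iff₀ (by positivity)]; nlinarith
      have hlim := weighted_limit (ℓ := ℓ) (η := η) (2 * m / (m + j) : ℝ) hq1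
        (ENNReal.ofReal (2 * K)) Γ
        (fun N => weighted_bound hℓ hη.le N x _ hq1 K hK0 (hK _ hq1 hq2) hc Γ
          (ih (by omega)) hR)
      refine holder_step (ℓ := ℓ) (η := η) (2 * m / (m + j) : ℝ) _ (2 * m : ℝ) ?_ ?_
        (by positivity) ?_ hsum Γ (ne_top_of_le_ne_top ENNReal.ofReal_ne_top hlim)
      · rw [le_div_iff₀ (by positivity)]; push_cast; linarith
      · push_cast
        apply div_lt_div_of_pos_left (by positivity) (by positivity)
        linarith
      · push_cast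
        field_simp
        ring
  have h1 := hind m le_rfl
  have e1 : (2 * m / (m + m) : ℝ) = 1 := by
    field_simp
    ring
  rw [e1] at h1
  have hΓ1 : Summable Γ := by
    have : ∑' u, ‖Γ u‖ₑ ≠ ∞ := by
      simpa [nq] using h1
    exact Summable.of_enorm this
  exact green_not_summable x hx Γ hΓ1 hR

end Pool.Agent.H37.C3
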