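import Pool.Agent.H37.C3.Core

open MeasureTheory ENNReal

set_option linter.unusedSectionVars false

namespace Pool.Agent.H37.C3

theorem free_gap {α : Type*} [DecidableEq α] (i j : α) (hij : i ≠ j) :
    GapProp (FreeGroup.of i) (FreeGroup.of j) := by
  intro h d d' hfin hd hd'
  refine gap_tsum (FreeGroup.of i) (FreeGroup.of j) (FreeGroup.startsWith (i, true))
    (FreeGroup.startsWith (i, false)) (FreeGroup.startsWith (j, true))
    (FreeGroup.startsWith (j, false)) ?_ ?_ ?_ ?_ ?_ ?_ ?_ ?_ h d d' hfin hd hd'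
  · intro u hu
    exact FreeGroup.startsWith_mk_mul (w := (i, true)) u (by simpa using hu)
  · intro u hu
    exact FreeGroup.startsWith_mk_mul (w := (j, true)) u (by simpa using hu)
  all_goals simp [hij]

theorem free_len {α : Type*} [DecidableEq α] : Len (fun g : FreeGroup α => g.norm) where
  one := FreeGroup.norm_one
  mul g u := FreeGroup.norm_mul_le g u
  mul' g u := by
    have := FreeGroup.norm_mul_le g⁻¹ (g * u)
    simpa using this

theorem list_growth (β : Type*) [Fintype β] (t : ℝ) (ht : 0 < t) (ht2 : Fintype.card β * t < 1) :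
    ∑' l : List β, ENNReal.ofReal (t ^ l.length) ≠ ∞ := by
  rw [← (List.equivSigmaTuple (α := β)).symm.tsum_eq, ENNReal.tsum_sigma']
  have : ∀ n : ℕ, ∑' f : Fin n → β,
      ENNReal.ofReal (t ^ (List.equivSigmaTuple.symm ⟨n, f⟩ : List β).length) =
      (ENNReal.ofReal (Fintype.card β * t)) ^ n := by
    intro n
    rw [tsum_fintype]
    have : ∀ f : Fin n → β, (List.equivSigmaTuple.symm ⟨n, f⟩ : List β).length = n := by
      intro f
      simp [List.equivSigmaTuple]
    simp only [this, Finset.sum_const, Finset.card_univ, Fintype.card_fun, Fintype.card_fin,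
      nsmul_eq_mul]
    rw [← ENNReal.ofReal_pow (by positivity), mul_pow, ENNReal.ofReal_mul (by positivity)]
    congr 1
    rw [ENNReal.ofReal_pow (by positivity)]
    simp
  simp_rw [this]
  rw [ENNReal.tsum_geometric]
  simp only [ne_eq, ENNReal.inv_eq_top]
  rw [tsub_eq_zero_iff_le, not_le]
  rw [← ENNReal.ofReal_one]
  exact (ENNReal.ofReal_lt_ofReal_iff (by norm_num)).2 ht2

theorem free_growth (α : Type*) [Fintype α] [DecidableEq α] :
    ∃ t : ℝ, 0 < t ∧ ∑' g : FreeGroup α, ENNReal.ofReal (t ^ g.norm) ≠ ∞ := by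
  refine ⟨1 / (Fintype.card (α × Bool) + 1), by positivity, ?_⟩
  have h := list_growth (α × Bool) (1 / (Fintype.card (α × Bool) + 1)) (by positivity) (by
    rw [mul_one_div, div_lt_one (by positivity)]
    linarith)
  refine ne_top_of_le_ne_top h ?_
  exact ENNReal.tsum_comp_le_tsum_of_injective (FreeGroup.toWord_injective (α := α))
    (fun l : List (α × Bool) => ENNReal.ofReal ((1 / (Fintype.card (α × Bool) + 1)) ^ l.length))

theorem free_core {n : ℕ} (i j : Fin n) (hij : i ≠ j)
    (x y y' : FreeGroup (Fin n) →₀ ℂ) (hx : x.sum (fun _ c => c) = 0) :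
    1 ≤ 2 * (n1 (star x y - del (FreeGroup.of i)) + n1 (star x y' - del (FreeGroup.of j))) := by
  obtain ⟨t, ht, hexp⟩ := free_growth (Fin n)
  have : Countable (FreeGroup (Fin n)) := by
    infer_instance
  exact core (free_gap i j hij) free_len t ht hexp x y y' hx

end Pool.Agent.H37.C3
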