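import Mathlib

open MeasureTheory ENNReal

namespace Pool.Agent.H37.C3

/-- Combinatorial gap: if `h u ≤ h (a u) + d u` and `h u ≤ h (b u) + d' u` on a group with four
disjoint paradoxical sets, then `∑ h ≤ ∑ d + ∑ d'`. -/
theorem gap_tsum {G : Type*} [Group G] (a b : G) (A A' B B' : Set G)
    (hA : ∀ u, u ∉ A' → a * u ∈ A) (hB : ∀ u, u ∉ B' → b * u ∈ B)
    (h1 : Disjoint A A') (h2 : Disjoint A B) (h3 : Disjoint A B')
    (h4 : Disjoint A' B) (h5 : Disjoint A' B') (h6 : Disjoint B B')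
    (h d d' : G → ℝ≥0∞) (hfin : ∑' u, h u ≠ ∞)
    (hd : ∀ u, h u ≤ h (a * u) + d u) (hd' : ∀ u, h u ≤ h (b * u) + d' u) :
    ∑' u, h u ≤ ∑' u, d u + ∑' u, d' u := by
  classical
  have key : ∀ (c : G) (C C' : Set G) (e : G → ℝ≥0∞), (∀ u, u ∉ C' → c * u ∈ C) →
      (∀ u, h u ≤ h (c * u) + e u) →
      ∑' u, h u ≤ ∑' u, C'.indicator h u + ∑' u, C.indicator h u + ∑' u, e u := by
    intro c C C' e hC he
    have h1 : ∀ u, h u ≤ C'.indicator h u + C.indicator h (c * u) + e u := by
      intro u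
      by_cases hu : u ∈ C'
      · rw [Set.indicator_of_mem hu]
        exact le_add_right le_self_add
      · rw [Set.indicator_of_mem (hC u hu)]
        refine (he u).trans ?_
        gcongr
        exact le_add_self
    calc ∑' u, h u ≤ ∑' u, (C'.indicator h u + C.indicator h (c * u) + e u) :=
          ENNReal.tsum_le_tsum h1
      _ = ∑' u, C'.indicator h u + ∑' u, C.indicator h (c * u) + ∑' u, e u := by
          rw [ENNReal.tsum_add, ENNReal.tsum_add]
      _ = _ := by
          congr 2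
          exact (Equiv.mulLeft c).tsum_eq (C.indicator h)
  have k1 := key a A A' d hA hd
  have k2 := key b B B' d' hB hd'
  have hsum : ∑' u, A'.indicator h u + ∑' u, A.indicator h u +
      (∑' u, B'.indicator h u + ∑' u, B.indicator h u) ≤ ∑' u, h u := by
    rw [← ENNReal.tsum_add, ← ENNReal.tsum_add, ← ENNReal.tsum_add]
    refine ENNReal.tsum_le_tsum fun u => ?_
    rw [Set.disjoint_left] at h1 h2 h3 h4 h5 h6
    by_cases uA : u ∈ A
    · simp [Set.indicator_of_mem uA, Set.indicator_of_notMem (h1 uA),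
        Set.indicator_of_notMem (h2 uA), Set.indicator_of_notMem (h3 uA)]
    by_cases uA' : u ∈ A'
    · simp [Set.indicator_of_mem uA', Set.indicator_of_notMem uA,
        Set.indicator_of_notMem (h4 uA'), Set.indicator_of_notMem (h5 uA')]
    by_cases uB : u ∈ B
    · simp [Set.indicator_of_mem uB, Set.indicator_of_notMem uA,
        Set.indicator_of_notMem uA', Set.indicator_of_notMem (h6 uB)]
    by_cases uB' : u ∈ B'
    · simp [Set.indicator_of_mem uB', Set.indicator_of_notMem uA,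
        Set.indicator_of_notMem uA', Set.indicator_of_notMem uB]
    · simp [Set.indicator_of_notMem uA,
        Set.indicator_of_notMem uA', Set.indicator_of_notMem uB, Set.indicator_of_notMem uB']
  have htot : ∑' u, h u + ∑' u, h u ≤ ∑' u, h u + (∑' u, d u + ∑' u, d' u) := by
    calc ∑' u, h u + ∑' u, h u ≤ (∑' u, A'.indicator h u + ∑' u, A.indicator h u + ∑' u, d u) +
          (∑' u, B'.indicator h u + ∑' u, B.indicator h u + ∑' u, d' u) := add_le_add k1 k2
      _ = (∑' u, A'.indicator h u + ∑' u, A.indicator h u +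
          (∑' u, B'.indicator h u + ∑' u, B.indicator h u)) + (∑' u, d u + ∑' u, d' u) := by ring
      _ ≤ _ := by gcongr
  exact (ENNReal.add_le_add_iff_left hfin).1 htot

/-- The scalar inequality `s^q ≤ t^q + q |s - t| s^(q-1)`. -/
theorem rpow_le_add (q : ℝ) (hq : 1 ≤ q) (s t : ℝ) (hs : 0 ≤ s) (ht : 0 ≤ t) :
    s ^ q ≤ t ^ q + q * (|s - t| * s ^ (q - 1)) := by
  rcases hs.eq_or_lt with rfl | hs'
  · rw [Real.zero_rpow (by linarith)]
    positivity
  have h := one_add_mul_self_le_rpow_one_add (s := t / s - 1) (p := q)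
    (by have := div_nonneg ht hs; linarith) hq
  have h2 : (1 + (t / s - 1)) = t / s := by ring
  rw [h2, Real.div_rpow ht hs] at h
  have hsq : 0 < s ^ q := Real.rpow_pos_of_pos hs' q
  rw [le_div_iff₀ hsq] at h
  have h3 : s ^ q = s * s ^ (q - 1) := by
    rw [← Real.rpow_one_add' hs (by linarith)]; ring_nf
  have h4 : (1 + q * (t / s - 1)) * s ^ q = s ^ q + q * ((t - s) * s ^ (q - 1)) := by
    rw [h3]; field_simp
  rw [h4] at h
  have h5 : (s - t) * s ^ (q - 1) ≤ |s - t| * s ^ (q - 1) :=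
    mul_le_mul_of_nonneg_right (le_abs_self _) (by positivity)
  nlinarith [mul_le_mul_of_nonneg_left h5 (by linarith : (0:ℝ) ≤ q)]

theorem enorm_rpow_le_add (q : ℝ) (hq : 1 ≤ q) (z w : ℂ) :
    ‖z‖ₑ ^ q ≤ ‖w‖ₑ ^ q + ENNReal.ofReal q * (‖w - z‖ₑ * ‖z‖ₑ ^ (q - 1)) := by
  have h := rpow_le_add q hq ‖z‖ ‖w‖ (norm_nonneg _) (norm_nonneg _)
  have h2 : ‖z‖ ^ q ≤ ‖w‖ ^ q + q * (‖w - z‖ * ‖z‖ ^ (q - 1)) := by
    refine h.trans ?_
    gcongr
    rw [norm_sub_rev]
    exact abs_norm_sub_norm_le z w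
  have := ENNReal.ofReal_le_ofReal h2
  rw [ENNReal.ofReal_add (by positivity) (by positivity), ENNReal.ofReal_mul (by positivity),
    ENNReal.ofReal_mul (by positivity), ← ENNReal.ofReal_rpow_of_nonneg (norm_nonneg _) (by linarith),
    ← ENNReal.ofReal_rpow_of_nonneg (norm_nonneg _) (by linarith),
    ← ENNReal.ofReal_rpow_of_nonneg (norm_nonneg _) (by linarith), ofReal_norm,
    ofReal_norm, ofReal_norm] at this
  exact this

end Pool.Agent.H37.C3
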