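import Pool.Agent.H37.C3.Gap

open MeasureTheory ENNReal

namespace Pool.Agent.H37.C3

variable {G : Type*} [Group G]

/-- The `ℓ¹` spectral gap for the two elements `a`, `b`. -/
def GapProp (a b : G) : Prop :=
  ∀ h d d' : G → ℝ≥0∞, ∑' u, h u ≠ ∞ → (∀ u, h u ≤ h (a * u) + d u) →
    (∀ u, h u ≤ h (b * u) + d' u) → ∑' u, h u ≤ ∑' u, d u + ∑' u, d' u

/-- `ℓ^q` norm on a countable discrete type. -/
noncomputable def nq {G : Type*} (q : ℝ) (f : G → ℂ) : ℝ≥0∞ := (∑' u, ‖f u‖ₑ ^ q) ^ (1 / q)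

theorem nq_eq_eLpNorm {G : Type*} [MeasurableSpace G] [DiscreteMeasurableSpace G] [Countable G]
    (q : ℝ) (hq : 1 ≤ q) (f : G → ℂ) :
    nq q f = eLpNorm f (ENNReal.ofReal q) Measure.count := by
  have hq0 : 0 < q := by linarith
  rw [eLpNorm_eq_lintegral_rpow_enorm_toReal (by simpa using hq0) (by simp), lintegral_count,
    ENNReal.toReal_ofReal hq0.le, nq]

/-- Hölder. -/
theorem holder_tsum {G : Type*} [Countable G] (q : ℝ) (hq : 1 ≤ q) (f g : G → ℝ≥0∞) :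
    ∑' u, f u * g u ^ (q - 1) ≤ (∑' u, f u ^ q) ^ (1 / q) * (∑' u, g u ^ q) ^ (1 - 1 / q) := by
  let _ : MeasurableSpace G := ⊤
  have _ : DiscreteMeasurableSpace G := ⟨fun _ => trivial⟩
  rcases hq.eq_or_lt with rfl | hq1
  · simp
  have hpq : q.HolderConjugate (q / (q - 1)) := Real.HolderConjugate.conjExponent hq1
  have := ENNReal.lintegral_mul_rpow_le_lintegral_rpow_mul_lintegral_rpow (μ := Measure.count)
    hpq (f := f) (g := g) (Measurable.of_discrete).aemeasurable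
    (Measurable.of_discrete).aemeasurable
  rw [lintegral_count, lintegral_count, lintegral_count] at this
  refine this.trans_eq ?_
  congr 2
  have := hpq.inv_add_inv_eq_one
  rw [one_div, one_div]
  linarith

theorem gap_nq [Countable G] {a b : G} (hG : GapProp a b) (q : ℝ) (hq : 1 ≤ q) (hq2 : q ≤ 2)
    (f : G → ℂ) (hf : nq q f ≠ ∞) :
    nq q f ≤ 2 * (nq q (fun u => f (a * u) - f u) + nq q (fun u => f (b * u) - f u)) := by
  have hq0 : 0 < q := by linarith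
  set S := ∑' u, ‖f u‖ₑ ^ q with hS
  have hST : S ≠ ∞ := by
    intro h
    apply hf
    rw [nq, ← hS, h, ENNReal.top_rpow_of_pos (by positivity)]
  have h1 := hG (fun u => ‖f u‖ₑ ^ q)
    (fun u => ENNReal.ofReal q * (‖f (a * u) - f u‖ₑ * ‖f u‖ₑ ^ (q - 1)))
    (fun u => ENNReal.ofReal q * (‖f (b * u) - f u‖ₑ * ‖f u‖ₑ ^ (q - 1))) hST
    (fun u => enorm_rpow_le_add q hq _ _) (fun u => enorm_rpow_le_add q hq _ _)
  rw [ENNReal.tsum_mul_left, ENNReal.tsum_mul_left, ← hS, ← mul_add] at h1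
  have h2 := holder_tsum q hq (fun u => ‖f (a * u) - f u‖ₑ) (fun u => ‖f u‖ₑ)
  have h3 := holder_tsum q hq (fun u => ‖f (b * u) - f u‖ₑ) (fun u => ‖f u‖ₑ)
  rw [← hS] at h2 h3
  have h4 : S ≤ ENNReal.ofReal q * ((nq q (fun u => f (a * u) - f u) +
      nq q (fun u => f (b * u) - f u)) * S ^ (1 - 1 / q)) := by
    refine h1.trans ?_
    gcongr
    rw [add_mul]
    exact add_le_add h2 h3
  rcases eq_or_ne S 0 with h0 | h0
  · rw [nq, ← hS, h0, ENNReal.zero_rpow_of_pos (by positivity)]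
    exact zero_le
  have h5 : nq q f * S ^ (1 - 1 / q) = S := by
    rw [nq, ← hS, ← ENNReal.rpow_add _ _ h0 hST]
    simp
  have h6 : S ^ (1 - 1 / q) ≠ 0 := by
    simp [ENNReal.rpow_eq_zero_iff, h0, hST]
  have h7 : S ^ (1 - 1 / q) ≠ ∞ := by
    refine ENNReal.rpow_ne_top_of_nonneg ?_ hST
    rw [sub_nonneg, div_le_one hq0]; exact hq
  have h8 : nq q f * S ^ (1 - 1 / q) ≤ (2 * (nq q (fun u => f (a * u) - f u) +
      nq q (fun u => f (b * u) - f u))) * S ^ (1 - 1 / q) := by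
    rw [h5]
    refine h4.trans ?_
    rw [mul_assoc]
    gcongr
    rw [← ENNReal.ofReal_ofNat]
    exact ENNReal.ofReal_le_ofReal hq2
  exact (ENNReal.mul_le_mul_iff_left h6 h7).1 h8

end Pool.Agent.H37.C3
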