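import Pool.Agent.H37.C3.Lower

open MeasureTheory ENNReal

set_option linter.unusedSectionVars false

namespace Pool.Agent.H37.C3

/-- `ℓ²(G)`. -/
abbrev H2 (G : Type*) : Type _ := lp (fun _ : G => ℂ) 2

/-- Reindexing `ℓ²`. -/
noncomputable def lpComp {G : Type*} (e : G ≃ G) : H2 G ≃ₗᵢ[ℂ] H2 G where
  toFun f := ⟨fun u => f (e u), by
    have h := lp.memℓp f
    refine memℓp_gen ?_
    have := h.summable (by simp)
    exact (e.summable_iff).2 this⟩
  invFun f := ⟨fun u => f (e.symm u), by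
    have h := lp.memℓp f
    refine memℓp_gen ?_
    have := h.summable (by simp)
    exact (e.symm.summable_iff).2 this⟩
  left_inv f := by
    ext u
    simp
  right_inv f := by
    ext u
    simp
  map_add' f g := by
    ext u
    rfl
  map_smul' c f := by
    ext u
    rfl
  norm_map' f := by
    rw [lp.norm_eq_tsum_rpow (by simp), lp.norm_eq_tsum_rpow (by simp)]
    congr 1
    exact e.tsum_eq (fun u => ‖f u‖ ^ ENNReal.toReal 2)

@[simp] theorem lpComp_apply {G : Type*} (e : G ≃ G) (f : H2 G) (u : G) :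
    lpComp e f u = f (e u) := rfl

/-- Abstract Hilbert space step. -/
theorem hilbert_step {H : Type*} [NormedAddCommGroup H] [InnerProductSpace ℂ H] [CompleteSpace H]
    {ι : Type*} (s : Finset ι) (c : ι → ℂ) (T : H →L[ℂ] H) (ρ : ι → H ≃ₗᵢ[ℂ] H)
    (K : ℝ) (hT : ∀ f, ‖f‖ ≤ K * ‖T f‖)
    (hcomm : ∀ i f, T (ρ i f) = ρ i (T f)) (d : H)
    (hd : T d = ∑ i ∈ s, c i • ρ i d)
    (hev : ∀ Γ, inner ℂ d (T Γ) = inner ℂ d (∑ i ∈ s, c i • ρ i Γ)) :
    ∃ Γ, T Γ = d := by
  have hK : ∀ f, ‖f‖ ≤ (K.toNNReal : ℝ) * ‖T f‖ := fun f =>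
    (hT f).trans (mul_le_mul_of_nonneg_right (Real.le_coe_toNNReal K) (norm_nonneg _))
  have hanti : AntilipschitzWith K.toNNReal T := by
    refine AddMonoidHomClass.antilipschitz_of_bound T hK
  have hclosed : IsClosed (Set.range T) := hanti.isClosed_range T.uniformContinuous
  have hinj : Function.Injective T := hanti.injective
  let V : Submodule ℂ H := LinearMap.range (T : H →ₗ[ℂ] H)
  have hV : IsClosed (V : Set H) := by
    have : (V : Set H) = Set.range T := by
      ext; simp [V]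
    rw [this]; exact hclosed
  have : CompleteSpace V := hV.completeSpace_coe
  obtain ⟨v, hv, w, hw, hvw'⟩ := Submodule.exists_add_mem_mem_orthogonal (K := V) d
  have hvw : v + w = d := hvw'.symm
  obtain ⟨Γ, hΓ⟩ := hv
  have hΓ : T Γ = v := hΓ
  -- the orthogonal complement is invariant
  have hρV : ∀ i, ∀ z ∈ V, (ρ i) z ∈ V := by
    rintro i _ ⟨z, rfl⟩
    exact ⟨ρ i z, hcomm i z⟩
  have hρV' : ∀ i, ∀ z ∈ V, (ρ i).symm z ∈ V := by
    rintro i _ ⟨z, rfl⟩
    refine ⟨(ρ i).symm z, ?_⟩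
    apply (ρ i).injective
    change (ρ i) (T ((ρ i).symm z)) = ρ i ((ρ i).symm (T z))
    rw [← hcomm]
    simp
  have hρW : ∀ i, (ρ i) w ∈ Vᗮ := by
    intro i
    rw [Submodule.mem_orthogonal] at hw ⊢
    intro z hz
    have h1 := hw _ (hρV' i z hz)
    rw [← (ρ i).inner_map_map] at h1
    simpa using h1
  have h1 : T d - ∑ i ∈ s, c i • ρ i v = ∑ i ∈ s, c i • ρ i w := by
    rw [hd, ← Finset.sum_sub_distrib]
    refine Finset.sum_congr rfl fun i _ => ?_
    rw [← smul_sub, ← map_sub, hvw']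
    simp
  have h2 : T d - ∑ i ∈ s, c i • ρ i v ∈ V := by
    refine V.sub_mem ⟨d, rfl⟩ (V.sum_mem fun i _ => V.smul_mem _ (hρV i v ⟨Γ, hΓ⟩))
  have h3 : T d - ∑ i ∈ s, c i • ρ i v ∈ Vᗮ := by
    rw [h1]
    exact Submodule.sum_mem _ fun i _ => Submodule.smul_mem _ _ (hρW i)
  have h4 : T d - ∑ i ∈ s, c i • ρ i v = 0 := by
    have := Submodule.inner_right_of_mem_orthogonal h2 h3
    simpa using this
  have h5 : T d = T (∑ i ∈ s, c i • ρ i Γ) := by
    rw [map_sum, sub_eq_zero.1 h4]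
    refine Finset.sum_congr rfl fun i _ => ?_
    rw [map_smul, hcomm, hΓ]
  have h6 : d = ∑ i ∈ s, c i • ρ i Γ := hinj h5
  have h7 : inner ℂ d v = inner ℂ d d := by
    rw [← hΓ, hev, ← h6]
  have hvV : v ∈ V := ⟨Γ, hΓ⟩
  have h8 : inner ℂ v w = 0 := Submodule.inner_right_of_mem_orthogonal hvV hw
  have h9 : inner ℂ w w = 0 := by
    have e1 : inner ℂ d w = 0 := by
      have : inner ℂ d d = inner ℂ d v + inner ℂ d w := by
        rw [← inner_add_right, hvw]
      rw [h7] at this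
      simpa using this
    have e2 : inner ℂ d w = inner ℂ v w + inner ℂ w w := by
      rw [← inner_add_left, hvw]
    rw [e1, h8, zero_add] at e2
    exact e2.symm
  have h10 : w = 0 := by simpa using h9
  refine ⟨Γ, ?_⟩
  rw [hΓ, ← hvw, h10, add_zero]

end Pool.Agent.H37.C3
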