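import Pool.Agent.H37.C3.GapQ

open MeasureTheory ENNReal

set_option linter.unusedSectionVars false

namespace Pool.Agent.H37.C3

section nq
variable {α : Type*} [Countable α]

theorem nq_add_le (q : ℝ) (hq : 1 ≤ q) (f g : α → ℂ) :
    nq q (fun u => f u + g u) ≤ nq q f + nq q g := by
  let _ : MeasurableSpace α := ⊤
  have _ : DiscreteMeasurableSpace α := ⟨fun _ => trivial⟩
  rw [nq_eq_eLpNorm q hq, nq_eq_eLpNorm q hq, nq_eq_eLpNorm q hq]
  refine eLpNorm_add_le ?_ ?_ (by simpa using hq)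
  · exact (Measurable.of_discrete).aestronglyMeasurable
  · exact (Measurable.of_discrete).aestronglyMeasurable

theorem nq_sum_le {ι : Type*} (q : ℝ) (hq : 1 ≤ q) (s : Finset ι) (f : ι → α → ℂ) :
    nq q (fun u => ∑ i ∈ s, f i u) ≤ ∑ i ∈ s, nq q (f i) := by
  classical
  induction s using Finset.induction_on with
  | empty =>
    simp only [Finset.sum_empty, nq, enorm_zero]
    rw [ENNReal.zero_rpow_of_pos (by linarith)]
    simp only [tsum_zero]
    rw [ENNReal.zero_rpow_of_pos (by positivity)]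
  | insert i s hi ih =>
    simp only [Finset.sum_insert hi]
    exact (nq_add_le q hq _ _).trans (by gcongr)

theorem nq_const_mul (q : ℝ) (hq : 1 ≤ q) (c : ℂ) (f : α → ℂ) :
    nq q (fun u => c * f u) = ‖c‖ₑ * nq q f := by
  have hq0 : 0 < q := by linarith
  simp only [nq, enorm_mul]
  simp_rw [ENNReal.mul_rpow_of_nonneg _ _ hq0.le]
  rw [ENNReal.tsum_mul_left, ENNReal.mul_rpow_of_nonneg _ _ (by positivity),
    ← ENNReal.rpow_mul, mul_one_div_cancel hq0.ne', ENNReal.rpow_one]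

theorem nq_neg (q : ℝ) (f : α → ℂ) : nq q (fun u => - f u) = nq q f := by
  simp [nq]

theorem nq_sub_le (q : ℝ) (hq : 1 ≤ q) (f g : α → ℂ) :
    nq q (fun u => f u - g u) ≤ nq q f + nq q g := by
  have := nq_add_le q hq f (fun u => - g u)
  rw [nq_neg] at this
  simpa [sub_eq_add_neg] using this

theorem nq_comp_equiv (q : ℝ) (e : α ≃ α) (f : α → ℂ) :
    nq q (fun u => f (e u)) = nq q f := by
  simp only [nq]
  rw [e.tsum_eq (fun u => ‖f u‖ₑ ^ q)]

theorem nq_mono (q : ℝ) (hq : 1 ≤ q) (f g : α → ℂ) (h : ∀ u, ‖f u‖ₑ ≤ ‖g u‖ₑ) :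
    nq q f ≤ nq q g := by
  simp only [nq]
  have : ∀ u, ‖f u‖ₑ ^ q ≤ ‖g u‖ₑ ^ q := fun u =>
    ENNReal.rpow_le_rpow (h u) (by linarith)
  exact ENNReal.rpow_le_rpow (ENNReal.tsum_le_tsum this) (by positivity)

end nq

variable {G : Type*} [Group G]

/-- `(R x f)(u) = ∑_g x(g) f(g u)`. -/
noncomputable def R (x : G →₀ ℂ) (f : G → ℂ) (u : G) : ℂ := x.sum fun g c => c * f (g * u)

/-- The `ℓ¹`-norm of a finitely supported function. -/
noncomputable def n1 (x : G →₀ ℂ) : ℝ≥0∞ := x.sum fun _ c => ‖c‖ₑ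

/-- The convolution product of finitely supported functions. -/
noncomputable def star (x y : G →₀ ℂ) : G →₀ ℂ :=
  x.sum fun g c => y.sum fun h d => Finsupp.single (g * h) (c * d)

theorem n1_ne_top (x : G →₀ ℂ) : n1 x ≠ ∞ := by
  simp [n1, Finsupp.sum]

theorem nq_R_le [Countable G] (q : ℝ) (hq : 1 ≤ q) (x : G →₀ ℂ) (f : G → ℂ) :
    nq q (R x f) ≤ n1 x * nq q f := by
  unfold R n1 Finsupp.sum
  refine (nq_sum_le q hq _ _).trans ?_
  rw [Finset.sum_mul]
  refine Finset.sum_le_sum fun g _ => ?_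
  rw [nq_const_mul q hq]
  exact le_of_eq (congrArg _ (nq_comp_equiv q (Equiv.mulLeft g) f))

theorem R_add (x y : G →₀ ℂ) (f : G → ℂ) (u : G) : R (x + y) f u = R x f u + R y f u := by
  classical
  unfold R
  exact Finsupp.sum_add_index' (by simp) (by intros; ring)

theorem R_single (g : G) (c : ℂ) (f : G → ℂ) (u : G) :
    R (Finsupp.single g c) f u = c * f (g * u) := by
  unfold R
  rw [Finsupp.sum_single_index (by simp)]

theorem R_zero (f : G → ℂ) (u : G) : R (0 : G →₀ ℂ) f u = 0 := by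
  simp [R]

theorem R_sum {ι : Type*} (s : Finset ι) (x : ι → G →₀ ℂ) (f : G → ℂ) (u : G) :
    R (∑ i ∈ s, x i) f u = ∑ i ∈ s, R (x i) f u := by
  classical
  induction s using Finset.induction_on with
  | empty => simp [R_zero]
  | insert i s hi ih => rw [Finset.sum_insert hi, Finset.sum_insert hi, R_add, ih]

theorem R_neg (x : G →₀ ℂ) (f : G → ℂ) (u : G) : R (-x) f u = - R x f u := by
  have := R_add x (-x) f u
  rw [add_neg_cancel, R_zero] at this
  linear_combination -this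

theorem R_sub (x y : G →₀ ℂ) (f : G → ℂ) (u : G) : R (x - y) f u = R x f u - R y f u := by
  rw [sub_eq_add_neg, R_add, R_neg, sub_eq_add_neg]

theorem R_star (x y : G →₀ ℂ) (f : G → ℂ) (u : G) : R (star x y) f u = R y (R x f) u := by
  unfold star
  rw [Finsupp.sum, R_sum]
  simp_rw [Finsupp.sum, R_sum, R_single]
  unfold R Finsupp.sum
  rw [Finset.sum_comm]
  refine Finset.sum_congr rfl fun h _ => ?_
  simp only []
  rw [Finset.mul_sum]
  refine Finset.sum_congr rfl fun g _ => ?_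
  rw [mul_assoc g h u]
  ring

/-- `δ_a - δ_e` as a finitely supported function. -/
noncomputable def del (a : G) : G →₀ ℂ := Finsupp.single a 1 - Finsupp.single 1 1

theorem R_del (a : G) (f : G → ℂ) (u : G) : R (del a) f u = f (a * u) - f u := by
  simp [del, R_sub, R_single]

/-- If `x * y ≈ δ_a - δ_e` and `x * y' ≈ δ_b - δ_e` well enough, then `R x` is bounded below
on `ℓ^q`, uniformly for `q ∈ [1, 2]`. -/
theorem lower_bound [Countable G] {a b : G} (hG : GapProp a b) (x y y' : G →₀ ℂ)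
    (hsmall : 2 * (n1 (star x y - del a) + n1 (star x y' - del b)) < 1) :
    ∃ K : ℝ, 0 < K ∧ ∀ q : ℝ, 1 ≤ q → q ≤ 2 → ∀ f : G → ℂ, nq q f ≠ ∞ →
      nq q f ≤ ENNReal.ofReal K * nq q (R x f) := by
  obtain ⟨θ, hθ⟩ : ∃ θ : ℝ≥0∞, θ = 2 * (n1 (star x y - del a) + n1 (star x y' - del b)) := ⟨_, rfl⟩
  rw [← hθ] at hsmall
  have hθt : θ ≠ ∞ := (hsmall.trans ENNReal.one_lt_top).ne
  have hθr : θ.toReal < 1 := by
    have := (ENNReal.toReal_lt_toReal hθt ENNReal.one_ne_top).2 hsmall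
    simpa using this
  obtain ⟨M, hM⟩ : ∃ M : ℝ≥0∞, M = 2 * (n1 y + n1 y') := ⟨_, rfl⟩
  have hMt : M ≠ ∞ := by
    simp [hM, ENNReal.mul_eq_top, n1_ne_top]
  refine ⟨(M.toReal + 1) / (1 - θ.toReal), by
    have : 0 ≤ M.toReal := ENNReal.toReal_nonneg
    have h2 : 0 < 1 - θ.toReal := by linarith
    positivity, ?_⟩
  intro q hq hq2 f hf
  have hD : ∀ (c : G) (w : G →₀ ℂ), nq q (fun u => f (c * u) - f u) ≤
      n1 w * nq q (R x f) + n1 (star x w - del c) * nq q f := by
    intro c w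
    have h1 : (fun u => f (c * u) - f u) =
        fun u => R w (R x f) u - R (star x w - del c) f u := by
      funext u
      rw [R_sub, R_star, R_del]; ring
    rw [h1]
    refine (nq_sub_le q hq _ _).trans ?_
    exact add_le_add (nq_R_le q hq w (R x f)) (nq_R_le q hq _ f)
  have h2 := gap_nq hG q hq hq2 f hf
  have h3 : nq q f ≤ M * nq q (R x f) + θ * nq q f := by
    refine h2.trans ?_
    calc 2 * (nq q (fun u => f (a * u) - f u) + nq q (fun u => f (b * u) - f u))
        ≤ 2 * ((n1 y * nq q (R x f) + n1 (star x y - del a) * nq q f) +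
          (n1 y' * nq q (R x f) + n1 (star x y' - del b) * nq q f)) := by
          gcongr
          · exact hD a y
          · exact hD b y'
      _ = _ := by rw [hM, hθ]; ring
  have hRt : nq q (R x f) ≠ ∞ := by
    refine ((nq_R_le q hq x f).trans_lt ?_).ne
    exact ENNReal.mul_lt_top (n1_ne_top x).lt_top hf.lt_top
  have h4 : (nq q f).toReal ≤ M.toReal * (nq q (R x f)).toReal + θ.toReal * (nq q f).toReal := by
    have := ENNReal.toReal_mono (by
      refine ENNReal.add_ne_top.2 ⟨ENNReal.mul_ne_top hMt hRt, ENNReal.mul_ne_top hθt hf⟩) h3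
    rwa [ENNReal.toReal_add (ENNReal.mul_ne_top hMt hRt) (ENNReal.mul_ne_top hθt hf),
      ENNReal.toReal_mul, ENNReal.toReal_mul] at this
  rw [← ENNReal.ofReal_toReal hf, ← ENNReal.ofReal_toReal hRt,
    ← ENNReal.ofReal_mul (by
      have : 0 ≤ M.toReal := ENNReal.toReal_nonneg
      have h2 : 0 < 1 - θ.toReal := by linarith
      positivity)]
  apply ENNReal.ofReal_le_ofReal
  have h5 : 0 < 1 - θ.toReal := by linarith
  rw [div_mul_eq_mul_div, le_div_iff₀ h5]
  have h6 : 0 ≤ (nq q (R x f)).toReal := ENNReal.toReal_nonneg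
  nlinarith

end Pool.Agent.H37.C3
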