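import Pool.Agent.H37.C3.Lower

open MeasureTheory ENNReal

set_option linter.unusedSectionVars false

namespace Pool.Agent.H37.C3

variable {G : Type*} [Group G] [Countable G]

/-- A length function. -/
structure Len (ℓ : G → ℕ) : Prop where
  one : ℓ 1 = 0
  mul : ∀ g u, ℓ (g * u) ≤ ℓ g + ℓ u
  mul' : ∀ g u, ℓ u ≤ ℓ g + ℓ (g * u)

/-- Truncated exponential weight. -/
noncomputable def wt (ℓ : G → ℕ) (η : ℝ) (N : ℕ) (u : G) : ℝ :=
  Real.exp (η * ((min (ℓ u) N : ℕ) : ℝ))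

theorem wt_pos (ℓ : G → ℕ) (η : ℝ) (N : ℕ) (u : G) : 0 < wt ℓ η N u := Real.exp_pos _

theorem wt_diff {ℓ : G → ℕ} (hℓ : Len ℓ) {η : ℝ} (hη : 0 ≤ η) (N : ℕ) (g u : G) :
    |wt ℓ η N (g * u) - wt ℓ η N u| ≤ (Real.exp (η * ℓ g) - 1) * wt ℓ η N (g * u) := by
  have h1 : ((min (ℓ u) N : ℕ) : ℝ) ≤ ℓ g + ((min (ℓ (g * u)) N : ℕ) : ℝ) := by
    have : min (ℓ u) N ≤ ℓ g + min (ℓ (g * u)) N := by
      have := hℓ.mul' g u
      omega
    exact_mod_cast this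
  have h2 : ((min (ℓ (g * u)) N : ℕ) : ℝ) ≤ ℓ g + ((min (ℓ u) N : ℕ) : ℝ) := by
    have : min (ℓ (g * u)) N ≤ ℓ g + min (ℓ u) N := by
      have := hℓ.mul g u
      omega
    exact_mod_cast this
  have e1 : wt ℓ η N u ≤ Real.exp (η * ℓ g) * wt ℓ η N (g * u) := by
    rw [wt, wt, ← Real.exp_add]
    apply Real.exp_le_exp.2
    nlinarith
  have e2 : wt ℓ η N (g * u) ≤ Real.exp (η * ℓ g) * wt ℓ η N u := by
    rw [wt, wt, ← Real.exp_add]
    apply Real.exp_le_exp.2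
    nlinarith
  have p1 := wt_pos ℓ η N u
  have p2 := wt_pos ℓ η N (g * u)
  have hE : 1 ≤ Real.exp (η * ℓ g) := Real.one_le_exp (by positivity)
  rw [abs_le]
  constructor
  · linarith
  · -- w(gu) - w(u) ≤ w(gu) (1 - e^{-..}) ≤ (e^{..} - 1) w(gu)
    have e3 : wt ℓ η N (g * u) / Real.exp (η * ℓ g) ≤ wt ℓ η N u := by
      rw [div_le_iff₀ (by positivity)]; linarith
    have e4 : wt ℓ η N (g * u) * (2 - Real.exp (η * ℓ g)) ≤
        wt ℓ η N (g * u) / Real.exp (η * ℓ g) := by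
      rw [le_div_iff₀ (by positivity)]
      nlinarith [mul_nonneg p2.le (sq_nonneg (Real.exp (η * ℓ g) - 1))]
    nlinarith

/-- Commutator estimate. -/
theorem comm_bound {ℓ : G → ℕ} (hℓ : Len ℓ) {η : ℝ} (hη : 0 ≤ η) (N : ℕ) (x : G →₀ ℂ)
    (q : ℝ) (hq : 1 ≤ q) (f : G → ℂ) :
    nq q (fun u => R x (fun v => (wt ℓ η N v : ℂ) * f v) u - (wt ℓ η N u : ℂ) * R x f u) ≤
      (∑ g ∈ x.support, ‖x g‖ₑ * ENNReal.ofReal (Real.exp (η * ℓ g) - 1)) *
        nq q (fun v => (wt ℓ η N v : ℂ) * f v) := by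
  have h1 : (fun u => R x (fun v => (wt ℓ η N v : ℂ) * f v) u - (wt ℓ η N u : ℂ) * R x f u) =
      fun u => ∑ g ∈ x.support, x g *
        (((wt ℓ η N (g * u) - wt ℓ η N u : ℝ) : ℂ) * f (g * u)) := by
    funext u
    unfold R Finsupp.sum
    rw [Finset.mul_sum, ← Finset.sum_sub_distrib]
    refine Finset.sum_congr rfl fun g _ => ?_
    push_cast
    ring
  rw [h1, Finset.sum_mul]
  refine (nq_sum_le q hq _ _).trans (Finset.sum_le_sum fun g _ => ?_)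
  rw [nq_const_mul q hq, mul_assoc]
  gcongr
  have hc : ENNReal.ofReal (Real.exp (η * ℓ g) - 1) =
      ‖((Real.exp (η * ℓ g) - 1 : ℝ) : ℂ)‖ₑ := by
    have : 0 ≤ Real.exp (η * ℓ g) - 1 := by
      have : 1 ≤ Real.exp (η * ℓ g) := Real.one_le_exp (by positivity)
      linarith
    rw [← ofReal_norm, Complex.norm_real, Real.norm_of_nonneg this]
  rw [hc, ← nq_const_mul q hq]
  have h3 := nq_comp_equiv q (Equiv.mulLeft g)
    (fun v => ((Real.exp (η * ℓ g) - 1 : ℝ) : ℂ) * ((wt ℓ η N v : ℂ) * f v))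
  rw [← h3]
  refine nq_mono q hq _ _ fun u => ?_
  simp only [Equiv.coe_mulLeft]
  rw [← mul_assoc, enorm_mul, enorm_mul]
  gcongr
  rw [← ofReal_norm, ← ofReal_norm]
  apply ENNReal.ofReal_le_ofReal
  rw [← Complex.ofReal_mul, Complex.norm_real, Complex.norm_real, Real.norm_eq_abs,
    Real.norm_eq_abs]
  exact (wt_diff hℓ hη N g u).trans (le_abs_self _)

/-- For each `c > 0` there is `η > 0` for which the commutator constant is `≤ c`. -/
theorem exists_eta (ℓ : G → ℕ) (x : G →₀ ℂ) (c : ℝ) (hc : 0 < c) :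
    ∃ η : ℝ, 0 < η ∧
      ∑ g ∈ x.support, ‖x g‖ₑ * ENNReal.ofReal (Real.exp (η * ℓ g) - 1) ≤ ENNReal.ofReal c := by
  have hcont : Continuous fun η : ℝ => ∑ g ∈ x.support, ‖x g‖ * (Real.exp (η * ℓ g) - 1) := by
    fun_prop
  have h0 : (fun η : ℝ => ∑ g ∈ x.support, ‖x g‖ * (Real.exp (η * ℓ g) - 1)) 0 < c := by
    simpa using hc
  have hev := hcont.continuousAt.eventually_lt continuousAt_const h0
  rw [Metric.eventually_nhds_iff] at hev
  obtain ⟨ε, hε, h⟩ := hev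
  refine ⟨ε / 2, by positivity, ?_⟩
  have h1 := h (y := ε / 2) (by rw [Real.dist_eq, sub_zero, abs_of_pos (by positivity)]; linarith)
  have h2 : ∑ g ∈ x.support, ‖x g‖ₑ * ENNReal.ofReal (Real.exp (ε / 2 * ℓ g) - 1) =
      ENNReal.ofReal (∑ g ∈ x.support, ‖x g‖ * (Real.exp (ε / 2 * ℓ g) - 1)) := by
    rw [ENNReal.ofReal_sum_of_nonneg]
    · refine Finset.sum_congr rfl fun g _ => ?_
      rw [ENNReal.ofReal_mul (norm_nonneg _), ofReal_norm]
    · intro g _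
      have : 1 ≤ Real.exp (ε / 2 * ℓ g) := Real.one_le_exp (by positivity)
      have : 0 ≤ Real.exp (ε / 2 * ℓ g) - 1 := by linarith
      positivity
  rw [h2]
  exact ENNReal.ofReal_le_ofReal h1.le

end Pool.Agent.H37.C3
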