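import Pool.Agent.H37.C3.Weight

open MeasureTheory ENNReal

set_option linter.unusedSectionVars false

namespace Pool.Agent.H37.C3

variable {G : Type*} [Group G] [Countable G]

theorem nq_indicator_one (q : ℝ) (hq : 1 ≤ q) :
    nq q (fun u : G => Set.indicator {(1 : G)} (fun _ => (1 : ℂ)) u) = 1 := by
  classical
  have hq0 : 0 < q := by linarith
  rw [nq, tsum_eq_single (1 : G)]
  · simp
  · intro u hu
    rw [Set.indicator_of_notMem (by simpa using hu)]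
    simp [hq0]

theorem weighted_bound {ℓ : G → ℕ} (hℓ : Len ℓ) {η : ℝ} (hη : 0 ≤ η) (N : ℕ) (x : G →₀ ℂ)
    (q : ℝ) (hq : 1 ≤ q) (K : ℝ) (hK0 : 0 < K)
    (hK : ∀ f : G → ℂ, nq q f ≠ ∞ → nq q f ≤ ENNReal.ofReal K * nq q (R x f))
    (hc : ∑ g ∈ x.support, ‖x g‖ₑ * ENNReal.ofReal (Real.exp (η * ℓ g) - 1) ≤
      ENNReal.ofReal (1 / (2 * K)))
    (Γ : G → ℂ) (hΓ : nq q Γ ≠ ∞)
    (hR : ∀ u, R x Γ u = Set.indicator {(1 : G)} (fun _ => (1 : ℂ)) u) :
    nq q (fun v => (wt ℓ η N v : ℂ) * Γ v) ≤ ENNReal.ofReal (2 * K) := by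
  set F : G → ℂ := fun v => (wt ℓ η N v : ℂ) * Γ v with hF
  have hFt : nq q F ≠ ∞ := by
    have h1 : nq q F ≤ nq q (fun v => ((Real.exp (η * N) : ℝ) : ℂ) * Γ v) := by
      refine nq_mono q hq _ _ fun u => ?_
      rw [hF]
      simp only [enorm_mul]
      gcongr
      rw [← ofReal_norm, ← ofReal_norm]
      apply ENNReal.ofReal_le_ofReal
      rw [Complex.norm_real, Complex.norm_real, Real.norm_of_nonneg (Real.exp_pos _).le,
        Real.norm_of_nonneg (wt_pos _ _ _ _).le, wt]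
      apply Real.exp_le_exp.2
      gcongr
      exact min_le_right _ _
    rw [nq_const_mul q hq] at h1
    exact (h1.trans_lt (ENNReal.mul_lt_top (by simp) hΓ.lt_top)).ne
  have h2 : nq q (R x F) ≤ ENNReal.ofReal (1 / (2 * K)) * nq q F + 1 := by
    have e : R x F = fun u => (R x F u - (wt ℓ η N u : ℂ) * R x Γ u) +
        (wt ℓ η N u : ℂ) * R x Γ u := by
      funext u; ring
    rw [e]
    refine (nq_add_le q hq _ _).trans ?_
    refine add_le_add ?_ ?_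
    · exact (comm_bound hℓ hη N x q hq Γ).trans (by gcongr)
    · rw [← nq_indicator_one (G := G) q hq]
      refine nq_mono q hq _ _ fun u => ?_
      rw [hR]
      by_cases hu : u = 1
      · subst hu
        have : wt ℓ η N 1 = 1 := by simp [wt, hℓ.one]
        rw [this]; simp
      · rw [Set.indicator_of_notMem (by simpa using hu)]
        simp
  have h3 := hK F hFt
  have h4 : nq q F ≤ ENNReal.ofReal (1 / 2) * nq q F + ENNReal.ofReal K := by
    refine h3.trans ((mul_le_mul_right h2 _).trans (le_of_eq ?_))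
    rw [mul_add, mul_one, ← mul_assoc, ← ENNReal.ofReal_mul hK0.le]
    congr 3
    field_simp
  have h5 : (nq q F).toReal ≤ 1 / 2 * (nq q F).toReal + K := by
    have h6 : ENNReal.ofReal (1 / 2) * nq q F ≠ ∞ := ENNReal.mul_ne_top (by simp) hFt
    have := ENNReal.toReal_mono (ENNReal.add_ne_top.2 ⟨h6, by simp⟩) h4
    rwa [ENNReal.toReal_add h6 (by simp), ENNReal.toReal_mul, ENNReal.toReal_ofReal (by norm_num),
      ENNReal.toReal_ofReal hK0.le] at this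
  rw [← ENNReal.ofReal_toReal hFt]
  apply ENNReal.ofReal_le_ofReal
  linarith

/-- Passing to the limit in the weights. -/
theorem weighted_limit {ℓ : G → ℕ} {η : ℝ} (q : ℝ) (hq : 1 ≤ q) (C : ℝ≥0∞)
    (Γ : G → ℂ) (h : ∀ N, nq q (fun v => (wt ℓ η N v : ℂ) * Γ v) ≤ C) :
    nq q (fun v => ((Real.exp (η * ℓ v) : ℝ) : ℂ) * Γ v) ≤ C := by
  have hq0 : 0 < q := by linarith
  rw [nq, ENNReal.tsum_eq_iSup_sum]
  have h1 : (⨆ s : Finset G, ∑ u ∈ s, ‖((Real.exp (η * ℓ u) : ℝ) : ℂ) * Γ u‖ₑ ^ q) ≤ C ^ q := by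
    refine iSup_le fun s => ?_
    have h2 : ∑ u ∈ s, ‖((Real.exp (η * ℓ u) : ℝ) : ℂ) * Γ u‖ₑ ^ q =
        ∑ u ∈ s, ‖(wt ℓ η (s.sup ℓ) u : ℂ) * Γ u‖ₑ ^ q := by
      refine Finset.sum_congr rfl fun u hu => ?_
      have : min (ℓ u) (s.sup ℓ) = ℓ u := min_eq_left (Finset.le_sup hu)
      rw [wt, this]
    rw [h2]
    refine (ENNReal.sum_le_tsum s).trans ?_
    have h3 := ENNReal.rpow_le_rpow (h (s.sup ℓ)) hq0.le
    rwa [nq, ← ENNReal.rpow_mul, one_div_mul_cancel hq0.ne', ENNReal.rpow_one] at h3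
  have h4 := ENNReal.rpow_le_rpow h1 (by positivity : 0 ≤ 1 / q)
  rwa [← ENNReal.rpow_mul, mul_one_div_cancel hq0.ne', ENNReal.rpow_one] at h4

/-- Hölder step: from `q` to `r` with `1/r = 1/q + 1/s`. -/
theorem holder_step {ℓ : G → ℕ} {η : ℝ} (q r s : ℝ) (hr : 1 ≤ r) (hrq : r < q) (hs : 0 < s)
    (hrqs : 1 / r = 1 / q + 1 / s)
    (hsum : ∑' u : G, ENNReal.ofReal (Real.exp (-(η * ℓ u))) ^ s ≠ ∞)
    (Γ : G → ℂ) (h : nq q (fun v => ((Real.exp (η * ℓ v) : ℝ) : ℂ) * Γ v) ≠ ∞) :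
    nq r Γ ≠ ∞ := by
  let _ : MeasurableSpace G := ⊤
  have _ : DiscreteMeasurableSpace G := ⟨fun _ => trivial⟩
  have key := ENNReal.lintegral_Lp_mul_le_Lq_mul_Lr (p := r) (q := q) (r := s) (by linarith) hrq
    hrqs Measure.count (f := fun u : G => ‖((Real.exp (η * ℓ u) : ℝ) : ℂ) * Γ u‖ₑ)
    (g := fun u : G => ENNReal.ofReal (Real.exp (-(η * ℓ u))))
    (Measurable.of_discrete).aemeasurable (Measurable.of_discrete).aemeasurable
  rw [lintegral_count, lintegral_count, lintegral_count] at key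
  have e : ∀ u : G, ((fun u : G => ‖((Real.exp (η * ℓ u) : ℝ) : ℂ) * Γ u‖ₑ) *
      (fun u : G => ENNReal.ofReal (Real.exp (-(η * ℓ u))))) u = ‖Γ u‖ₑ := by
    intro u
    simp only [Pi.mul_apply]
    rw [enorm_mul, ← ofReal_norm (((Real.exp (η * ℓ u) : ℝ) : ℂ)), Complex.norm_real,
      Real.norm_of_nonneg (Real.exp_pos _).le, mul_comm (ENNReal.ofReal _) ‖Γ u‖ₑ, mul_assoc,
      ← ENNReal.ofReal_mul (Real.exp_pos _).le, ← Real.exp_add, add_neg_cancel, Real.exp_zero,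
      ENNReal.ofReal_one, mul_one]
  simp_rw [e] at key
  have h2 : nq r Γ ≤ nq q (fun v => ((Real.exp (η * ℓ v) : ℝ) : ℂ) * Γ v) *
      (∑' u : G, ENNReal.ofReal (Real.exp (-(η * ℓ u))) ^ s) ^ (1 / s) := key
  refine (h2.trans_lt (ENNReal.mul_lt_top h.lt_top ?_)).ne
  exact ENNReal.rpow_lt_top_of_nonneg (by positivity) hsum

end Pool.Agent.H37.C3
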